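import Mathlib

set_option autoImplicit false
open Classical MeasureTheory

namespace Pool.Agent.MP_c36293_nt.H70

/-- Lower bound for the iterated integral over the unit square of a bounded measurable function
which is at least `L` on a product of two squares of side `1/4`. -/
lemma lower_int (F : (Fin 2 → ℝ) → (Fin 2 → ℝ) → ℝ) (hm : Measurable (Function.uncurry F))
    (B : ℝ) (hb : ∀ x ∈ Set.Icc (0 : Fin 2 → ℝ) 1, ∀ y ∈ Set.Icc (0 : Fin 2 → ℝ) 1, |F x y| ≤ B)
    (h0 : ∀ x y, 0 ≤ F x y) (L : ℝ)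
    (hL : ∀ x ∈ Set.Icc (![3/4, 1/4] : Fin 2 → ℝ) ![1, 1/2],
      ∀ y ∈ Set.Icc (![1/4, 3/4] : Fin 2 → ℝ) ![1/2, 1], L ≤ F x y) :
    L / 256 ≤ ∫ x in Set.Icc (0 : Fin 2 → ℝ) 1, ∫ y in Set.Icc (0 : Fin 2 → ℝ) 1, F x y := by
  set μ : Measure (Fin 2 → ℝ) := volume.restrict (Set.Icc (0 : Fin 2 → ℝ) 1) with hμ
  have : IsFiniteMeasure μ := by
    rw [hμ]; exact isFiniteMeasure_restrict.2 (measure_Icc_lt_top).ne
  have hint : Integrable (Function.uncurry F) (μ.prod μ) := by
    refine Integrable.of_bound hm.aestronglyMeasurable B ?_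
    rw [hμ, Measure.prod_restrict]
    refine (ae_restrict_iff' (measurableSet_Icc.prod measurableSet_Icc)).2 ?_
    exact Filter.Eventually.of_forall fun z hz => hb z.1 hz.1 z.2 hz.2
  rw [integral_integral hint]
  set X : Set (Fin 2 → ℝ) := Set.Icc (![3/4, 1/4] : Fin 2 → ℝ) ![1, 1/2] with hX
  set Y : Set (Fin 2 → ℝ) := Set.Icc (![1/4, 3/4] : Fin 2 → ℝ) ![1/2, 1] with hY
  have hXs : X ⊆ Set.Icc (0 : Fin 2 → ℝ) 1 := by
    apply Set.Icc_subset_Icc <;> intro i <;> fin_cases i <;> simp <;> norm_num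
  have hYs : Y ⊆ Set.Icc (0 : Fin 2 → ℝ) 1 := by
    apply Set.Icc_subset_Icc <;> intro i <;> fin_cases i <;> simp <;> norm_num
  have hvX : μ X = ENNReal.ofReal (1/16) := by
    rw [hμ, Measure.restrict_apply measurableSet_Icc, Set.inter_eq_left.2 hXs, hX,
      Real.volume_Icc_pi, Fin.prod_univ_two, ← ENNReal.ofReal_mul (by simp; norm_num)]
    congr 1; simp; norm_num
  have hvY : μ Y = ENNReal.ofReal (1/16) := by
    rw [hμ, Measure.restrict_apply measurableSet_Icc, Set.inter_eq_left.2 hYs, hY,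
      Real.volume_Icc_pi, Fin.prod_univ_two, ← ENNReal.ofReal_mul (by simp; norm_num)]
    congr 1; simp; norm_num
  have hmXY : MeasurableSet (X ×ˢ Y) := measurableSet_Icc.prod measurableSet_Icc
  have h1 : ∫ z, (X ×ˢ Y).indicator (fun _ => L) z ∂(μ.prod μ) = L / 256 := by
    rw [integral_indicator_const _ hmXY, Measure.real, Measure.prod_prod, hvX, hvY,
      ← ENNReal.ofReal_mul (by norm_num), ENNReal.toReal_ofReal (by norm_num)]
    simp; ring
  rw [← h1]
  refine integral_mono ((integrable_const L).indicator hmXY) hint ?_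
  intro z
  by_cases hz : z ∈ X ×ˢ Y
  · rw [Set.indicator_of_mem hz]; exact hL z.1 hz.1 z.2 hz.2
  · rw [Set.indicator_of_notMem hz]; exact h0 _ _

/-- Upper bound for the iterated integral. -/
lemma upper_int (F : (Fin 2 → ℝ) → (Fin 2 → ℝ) → ℝ) (h0 : ∀ x y, 0 ≤ F x y) (a b t : ℝ)
    (hb : 0 ≤ b) (ht : 0 ≤ t)
    (h : ∀ x ∈ Set.Icc (0 : Fin 2 → ℝ) 1, ∀ y ∈ Set.Icc (0 : Fin 2 → ℝ) 1,
      F x y ≤ a + if x 0 < t then b else 0) :
    ∫ x in Set.Icc (0 : Fin 2 → ℝ) 1, ∫ y in Set.Icc (0 : Fin 2 → ℝ) 1, F x y ≤ a + b * t := by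
  set μ : Measure (Fin 2 → ℝ) := volume.restrict (Set.Icc (0 : Fin 2 → ℝ) 1) with hμ
  have hu : μ Set.univ = 1 := by
    rw [hμ, Measure.restrict_apply MeasurableSet.univ, Set.univ_inter, Real.volume_Icc_pi]
    simp
  have : IsProbabilityMeasure μ := ⟨hu⟩
  set X : Set (Fin 2 → ℝ) := Set.Icc (0 : Fin 2 → ℝ) ![t, 1] with hX
  have hvX : μ.real X ≤ t := by
    have : μ X ≤ ENNReal.ofReal t := by
      rw [hμ]
      refine (Measure.restrict_apply_le _ _).trans ?_
      rw [hX, Real.volume_Icc_pi, Fin.prod_univ_two]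
      simp
    exact ENNReal.toReal_le_of_le_ofReal ht this
  have hin : ∀ x ∈ Set.Icc (0 : Fin 2 → ℝ) 1, ∫ y, F x y ∂μ ≤ a + X.indicator (fun _ => b) x := by
    intro x hx
    have h1 : ∫ y, F x y ∂μ ≤ ∫ _y, (a + if x 0 < t then b else 0) ∂μ := by
      refine integral_mono_of_nonneg (Filter.Eventually.of_forall fun y => h0 x y)
        (integrable_const _) ?_
      rw [hμ]
      exact (ae_restrict_iff' measurableSet_Icc).2
        (Filter.Eventually.of_forall fun y hy => h x hx y hy)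
    rw [integral_const, probReal_univ, one_smul] at h1
    refine h1.trans ?_
    by_cases hxt : x 0 < t
    · have : x ∈ X := by
        refine ⟨hx.1, fun i => ?_⟩
        fin_cases i
        · simpa using hxt.le
        · simpa using hx.2 1
      rw [if_pos hxt, Set.indicator_of_mem this]
    · rw [if_neg hxt]
      have : 0 ≤ X.indicator (fun _ => b) x := Set.indicator_nonneg (fun _ _ => hb) x
      linarith
  have h2 : ∫ x, ∫ y, F x y ∂μ ∂μ ≤ ∫ x, (a + X.indicator (fun _ => b) x) ∂μ := by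
    refine integral_mono_of_nonneg
      (Filter.Eventually.of_forall fun x => integral_nonneg fun y => h0 x y)
      ((integrable_const a).add ((integrable_const b).indicator measurableSet_Icc)) ?_
    rw [hμ]
    exact (ae_restrict_iff' measurableSet_Icc).2 (Filter.Eventually.of_forall hin)
  refine h2.trans ?_
  rw [integral_add (integrable_const a) ((integrable_const b).indicator measurableSet_Icc),
    integral_const, probReal_univ, one_smul, integral_indicator_const _ measurableSet_Icc,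
    smul_eq_mul]
  nlinarith

/-- number of grid values `a / M` in `[x, y)` -/
noncomputable def cnt (M : ℕ) (x y : ℝ) : ℝ :=
  ∑ a : Fin M, if x ≤ (a : ℝ) / M ∧ (a : ℝ) / M < y then 1 else 0

lemma cnt_nonneg (M : ℕ) (x y : ℝ) : 0 ≤ cnt M x y :=
  Finset.sum_nonneg fun a _ => by split_ifs <;> norm_num

lemma cnt_le (M : ℕ) (x y : ℝ) : cnt M x y ≤ M := by
  unfold cnt
  calc _ ≤ ∑ _a : Fin M, (1 : ℝ) := Finset.sum_le_sum fun a _ => by split_ifs <;> norm_num
    _ = M := by simp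

lemma cnt_approx (M : ℕ) (hM : 0 < M) (x y : ℝ) (hx : 0 ≤ x) (hxy : x ≤ y) (hy : y ≤ 1) :
    |cnt M x y - M * (y - x)| ≤ 1 := by
  have hM' : (0 : ℝ) < M := by exact_mod_cast hM
  have h1 : cnt M x y = (⌈M * y⌉₊ : ℝ) - ⌈M * x⌉₊ := by
    unfold cnt
    rw [Fin.sum_univ_eq_sum_range (fun a : ℕ => if x ≤ (a : ℝ) / M ∧ (a : ℝ) / M < y then (1 : ℝ) else 0) M]
    rw [Finset.sum_boole]
    have hle : ⌈M * x⌉₊ ≤ ⌈M * y⌉₊ := Nat.ceil_mono (by nlinarith)
    have : (Finset.range M).filter (fun a : ℕ => x ≤ (a : ℝ) / M ∧ (a : ℝ) / M < y)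
        = Finset.Ico ⌈M * x⌉₊ ⌈M * y⌉₊ := by
      ext a
      simp only [Finset.mem_filter, Finset.mem_range, Finset.mem_Ico, Nat.ceil_le, Nat.lt_ceil,
        le_div_iff₀ hM', div_lt_iff₀ hM']
      constructor
      · rintro ⟨_, h2, h3⟩
        exact ⟨by linarith, by linarith⟩
      · rintro ⟨h2, h3⟩
        refine ⟨?_, by linarith, by linarith⟩
        have : (a : ℝ) < M := by nlinarith
        exact_mod_cast this
    rw [this, Nat.card_Ico, Nat.cast_sub hle]
  have ha := Nat.le_ceil (M * y)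
  have hb := Nat.ceil_lt_add_one (a := (M : ℝ) * y) (by nlinarith)
  have hc := Nat.le_ceil (M * x)
  have hd := Nat.ceil_lt_add_one (a := (M : ℝ) * x) (by positivity)
  rw [h1, abs_le]
  constructor <;> linarith

end Pool.Agent.MP_c36293_nt.H70
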