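import Pool.Agent.MP_c36293_nt.H70.Basic

set_option autoImplicit false
open Classical MeasureTheory

namespace Pool.Agent.MP_c36293_nt.H70

/-- The point in column `a`, row `b` of the `M × M` grid, where the first `k` columns are
squeezed vertically by the factor `4`. -/
noncomputable def pt (M k : ℕ) (a b : Fin M) : Fin 2 → ℝ :=
  ![(a : ℝ) / M, if (a : ℕ) < k then (b : ℝ) / (4 * M) else (b : ℝ) / M]

/-- The point set, indexed by `Fin (M * M)`. -/
noncomputable def pts (M k : ℕ) (i : Fin (M * M)) : Fin 2 → ℝ :=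
  pt M k (finProdFinEquiv.symm i).1 (finProdFinEquiv.symm i).2

/-- The points are pairwise distinct (so the example is a genuine set of `M * M` points). -/
lemma pts_injective (M k : ℕ) : Function.Injective (pts M k) := by
  intro i j h
  have hM : (0 : ℝ) < M := by
    have : 0 < M := (finProdFinEquiv.symm i).1.pos
    exact_mod_cast this
  have h0 := congrFun h 0
  have h1 := congrFun h 1
  simp only [pts, pt, Matrix.cons_val_zero, Matrix.cons_val_one] at h0 h1
  have ha : (finProdFinEquiv.symm i).1 = (finProdFinEquiv.symm j).1 := by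
    rw [div_left_inj' hM.ne'] at h0
    exact Fin.ext (by exact_mod_cast h0)
  rw [ha] at h1
  have hb : (finProdFinEquiv.symm i).2 = (finProdFinEquiv.symm j).2 := by
    split_ifs at h1
    · rw [div_left_inj' (by positivity)] at h1
      exact Fin.ext (by exact_mod_cast h1)
    · rw [div_left_inj' hM.ne'] at h1
      exact Fin.ext (by exact_mod_cast h1)
  exact finProdFinEquiv.symm.injective (Prod.ext ha hb)

lemma pts_mem (M k : ℕ) (i : Fin (M * M)) (j : Fin 2) : 0 ≤ pts M k i j ∧ pts M k i j < 1 := by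
  have hM : (0 : ℝ) < M := by
    have : 0 < M := (finProdFinEquiv.symm i).1.pos
    exact_mod_cast this
  have ha : (((finProdFinEquiv.symm i).1 : ℕ) : ℝ) < M := by
    exact_mod_cast (finProdFinEquiv.symm i).1.isLt
  have hb : (((finProdFinEquiv.symm i).2 : ℕ) : ℝ) < M := by
    exact_mod_cast (finProdFinEquiv.symm i).2.isLt
  fin_cases j
  · simp only [pts, pt, Fin.zero_eta, Matrix.cons_val_zero]
    exact ⟨by positivity, (div_lt_one hM).2 ha⟩
  · simp only [pts, pt, Fin.mk_one, Matrix.cons_val_one, Matrix.cons_val_zero]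
    split_ifs
    · exact ⟨by positivity, (div_lt_one (by positivity)).2 (by linarith)⟩
    · exact ⟨by positivity, (div_lt_one hM).2 hb⟩

lemma card_pts (M k : ℕ) (Q : (Fin 2 → ℝ) → Prop) [DecidablePred fun i => Q (pts M k i)] :
    ((Finset.univ.filter (fun i : Fin (M * M) => Q (pts M k i))).card : ℝ)
      = ∑ a : Fin M, ∑ b : Fin M, if Q (pt M k a b) then 1 else 0 := by
  rw [← Finset.sum_boole, ← Fintype.sum_prod_type']
  refine Fintype.sum_equiv finProdFinEquiv.symm _ _ fun i => ?_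
  simp only [pts]
  congr

lemma sum_lt (M k : ℕ) (hk : k ≤ M) : (∑ a : Fin M, if (a : ℕ) < k then (1 : ℝ) else 0) = k := by
  rw [Fin.sum_univ_eq_sum_range (fun a : ℕ => if a < k then (1 : ℝ) else 0) M, Finset.sum_boole]
  have : (Finset.range M).filter (fun a => a < k) = Finset.range k := by
    ext a; simp only [Finset.mem_filter, Finset.mem_range]; omega
  rw [this, Finset.card_range]

/-- Pointwise bound for the extreme discrepancy function. -/
lemma extr_bound (M k : ℕ) (hM : 0 < M) (hk : k ≤ M) (x y : Fin 2 → ℝ)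
    (hx : x ∈ Set.Icc (0 : Fin 2 → ℝ) 1) (hy : y ∈ Set.Icc (0 : Fin 2 → ℝ) 1) (hxy : x ≤ y) :
    |(∑ a : Fin M, ∑ b : Fin M,
        if ∀ j : Fin 2, x j ≤ pt M k a b j ∧ pt M k a b j < y j then (1 : ℝ) else 0)
      - ((M * M : ℕ) : ℝ) * ∏ j : Fin 2, (y j - x j)|
      ≤ 2 * M + if x 0 < (k : ℝ) / M then (k : ℝ) * M else 0 := by
  have hM' : (0 : ℝ) < M := by exact_mod_cast hM
  have h0 := cnt_approx M hM (x 0) (y 0) (hx.1 0) (hxy 0) (hy.2 0)
  have h1 := cnt_approx M hM (x 1) (y 1) (hx.1 1) (hxy 1) (hy.2 1)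
  have hc1 := cnt_le M (x 1) (y 1)
  have hc1' := cnt_nonneg M (x 1) (y 1)
  have hl0 : 0 ≤ y 0 - x 0 := sub_nonneg.2 (hxy 0)
  have hl0' : y 0 - x 0 ≤ 1 := by
    have := hx.1 0; have := hy.2 0; simp at *; linarith
  -- grid part
  have hg : |cnt M (x 0) (y 0) * cnt M (x 1) (y 1) - ((M * M : ℕ) : ℝ) * ∏ j : Fin 2, (y j - x j)|
      ≤ 2 * M := by
    rw [Fin.prod_univ_two]
    push_cast
    have : cnt M (x 0) (y 0) * cnt M (x 1) (y 1) - (M : ℝ) * M * ((y 0 - x 0) * (y 1 - x 1))
        = (cnt M (x 0) (y 0) - M * (y 0 - x 0)) * cnt M (x 1) (y 1)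
          + M * (y 0 - x 0) * (cnt M (x 1) (y 1) - M * (y 1 - x 1)) := by ring
    rw [this]
    refine (abs_add_le _ _).trans ?_
    rw [abs_mul, abs_mul, abs_of_nonneg hc1', abs_of_nonneg (mul_nonneg hM'.le hl0)]
    have e1 : |cnt M (x 0) (y 0) - M * (y 0 - x 0)| * cnt M (x 1) (y 1) ≤ 1 * M :=
      mul_le_mul h0 hc1 hc1' zero_le_one
    have e2 : M * (y 0 - x 0) * |cnt M (x 1) (y 1) - M * (y 1 - x 1)| ≤ M * 1 :=
      mul_le_mul (by nlinarith) h1 (abs_nonneg _) hM'.le
    linarith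
  -- difference part
  have hd : |(∑ a : Fin M, ∑ b : Fin M,
        if ∀ j : Fin 2, x j ≤ pt M k a b j ∧ pt M k a b j < y j then (1 : ℝ) else 0)
      - cnt M (x 0) (y 0) * cnt M (x 1) (y 1)| ≤ if x 0 < (k : ℝ) / M then (k : ℝ) * M else 0 := by
    rw [cnt, Finset.sum_mul, ← Finset.sum_sub_distrib]
    refine (Finset.abs_sum_le_sum_abs _ _).trans ?_
    have key : ∀ a : Fin M, |(∑ b : Fin M,
        if ∀ j : Fin 2, x j ≤ pt M k a b j ∧ pt M k a b j < y j then (1 : ℝ) else 0)
        - (if x 0 ≤ (a : ℝ) / M ∧ (a : ℝ) / M < y 0 then 1 else 0) * cnt M (x 1) (y 1)|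
        ≤ (if (a : ℕ) < k then (1 : ℝ) else 0) * (if x 0 < (k : ℝ) / M then (M : ℝ) else 0) := by
      intro a
      simp only [Fin.forall_fin_two, pt, Matrix.cons_val_zero, Matrix.cons_val_one]
      by_cases hI : x 0 ≤ (a : ℝ) / M ∧ (a : ℝ) / M < y 0
      · by_cases hak : (a : ℕ) < k
        · have hxk : x 0 < (k : ℝ) / M := by
            refine hI.1.trans_lt ?_
            exact div_lt_div_of_pos_right (by exact_mod_cast hak) hM'
          simp only [hI, hak, hxk, if_true, true_and, and_self, one_mul]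
          have u1 : (∑ b : Fin M, if x 1 ≤ (b : ℝ) / (4 * M) ∧ (b : ℝ) / (4 * M) < y 1
              then (1 : ℝ) else 0) ≤ M := by
            calc _ ≤ ∑ _b : Fin M, (1 : ℝ) :=
                  Finset.sum_le_sum fun b _ => by split_ifs <;> norm_num
              _ = M := by simp
          have u2 : 0 ≤ (∑ b : Fin M, if x 1 ≤ (b : ℝ) / (4 * M) ∧ (b : ℝ) / (4 * M) < y 1
              then (1 : ℝ) else 0) := Finset.sum_nonneg fun b _ => by split_ifs <;> norm_num
          rw [abs_le]; constructor <;> linarith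
        · simp only [hI, hak, if_true, if_false, true_and, and_self, one_mul, zero_mul]
          rw [cnt, sub_self, abs_zero]
      · simp only [hI, false_and, if_false, Finset.sum_const_zero, zero_mul, sub_zero, abs_zero]
        split_ifs <;> positivity
    refine (Finset.sum_le_sum fun a _ => key a).trans ?_
    rw [← Finset.sum_mul, sum_lt M k hk]
    split_ifs <;> simp
  have := abs_add_le
    ((∑ a : Fin M, ∑ b : Fin M,
        if ∀ j : Fin 2, x j ≤ pt M k a b j ∧ pt M k a b j < y j then (1 : ℝ) else 0)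
      - cnt M (x 0) (y 0) * cnt M (x 1) (y 1))
    (cnt M (x 0) (y 0) * cnt M (x 1) (y 1) - ((M * M : ℕ) : ℝ) * ∏ j : Fin 2, (y j - x j))
  rw [sub_add_sub_cancel] at this
  linarith

/-- Pointwise lower bound for the periodic discrepancy function on wrap-around boxes. -/
lemma per_bound (M k : ℕ) (hM : 0 < M) (hk : 4 * k ≤ M) (x y : Fin 2 → ℝ)
    (hx : x ∈ Set.Icc (![3/4, 1/4] : Fin 2 → ℝ) ![1, 1/2])
    (hy : y ∈ Set.Icc (![1/4, 3/4] : Fin 2 → ℝ) ![1/2, 1]) :
    (k : ℝ) * M / 4 - 2 * M - 1 ≤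
    |(∑ a : Fin M, ∑ b : Fin M,
        if ∀ j : Fin 2, (x j ≤ y j ∧ x j ≤ pt M k a b j ∧ pt M k a b j < y j) ∨
              (y j < x j ∧ (pt M k a b j < y j ∨ x j ≤ pt M k a b j)) then (1 : ℝ) else 0)
      - ((M * M : ℕ) : ℝ) * ∏ j : Fin 2, (if x j ≤ y j then y j - x j else 1 - x j + y j)| := by
  have hM' : (0 : ℝ) < M := by exact_mod_cast hM
  have hk' : 4 * (k : ℝ) ≤ M := by exact_mod_cast hk
  have hx0 : 3 / 4 ≤ x 0 := by simpa using hx.1 0
  have hx0' : x 0 ≤ 1 := by simpa using hx.2 0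
  have hx1 : 1 / 4 ≤ x 1 := by have := hx.1 1; simp at this; linarith
  have hx1' : x 1 ≤ 1 / 2 := by have := hx.2 1; simp at this; linarith
  have hy0 : 1 / 4 ≤ y 0 := by have := hy.1 0; simp at this; linarith
  have hy0' : y 0 ≤ 1 / 2 := by have := hy.2 0; simp at this; linarith
  have hy1 : 3 / 4 ≤ y 1 := by simpa using hy.1 1
  have hy1' : y 1 ≤ 1 := by simpa using hy.2 1
  have c0 : ¬ x 0 ≤ y 0 := by linarith
  have c0' : y 0 < x 0 := by linarith
  have c1 : x 1 ≤ y 1 := by linarith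
  have c1' : ¬ y 1 < x 1 := by linarith
  have h0 := cnt_approx M hM (y 0) (x 0) (by linarith) c0'.le hx0'
  have h1 := cnt_approx M hM (x 1) (y 1) (by linarith) c1 hy1'
  have hc1' := cnt_nonneg M (x 1) (y 1)
  have key : ∀ a : Fin M, (∑ b : Fin M,
        if ∀ j : Fin 2, (x j ≤ y j ∧ x j ≤ pt M k a b j ∧ pt M k a b j < y j) ∨
              (y j < x j ∧ (pt M k a b j < y j ∨ x j ≤ pt M k a b j)) then (1 : ℝ) else 0)
      = (1 - (if y 0 ≤ (a : ℝ) / M ∧ (a : ℝ) / M < x 0 then 1 else 0)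
          - (if (a : ℕ) < k then (1 : ℝ) else 0)) * cnt M (x 1) (y 1) := by
    intro a
    simp only [Fin.forall_fin_two, pt, Matrix.cons_val_zero, Matrix.cons_val_one, c0, c0', c1, c1',
      false_and, true_and, false_or, or_false]
    by_cases hak : (a : ℕ) < k
    · have ha : (a : ℝ) / M < y 0 := by
        rw [div_lt_iff₀ hM']
        have : ((a : ℕ) : ℝ) < k := by exact_mod_cast hak
        nlinarith
      have hn : ¬ y 0 ≤ (a : ℝ) / M := not_le.2 ha
      simp only [hak, hn, if_true, false_and, if_false, sub_zero, sub_self, zero_mul]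
      refine Finset.sum_eq_zero fun b _ => if_neg ?_
      rintro ⟨_, h2, _⟩
      have hb : ((b : ℕ) : ℝ) < M := by exact_mod_cast b.isLt
      rw [le_div_iff₀ (by positivity)] at h2
      nlinarith
    · simp only [hak, if_false, sub_zero]
      by_cases hI : y 0 ≤ (a : ℝ) / M ∧ (a : ℝ) / M < x 0
      · have : ¬ ((a : ℝ) / M < y 0 ∨ x 0 ≤ (a : ℝ) / M) := by
          rintro (h | h)
          · linarith [hI.1]
          · linarith [hI.2]
        simp only [this, hI, false_and, if_false, Finset.sum_const_zero, and_self, if_true,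
          sub_self, zero_mul]
      · have : ((a : ℝ) / M < y 0 ∨ x 0 ≤ (a : ℝ) / M) := by
          by_contra hcon
          push Not at hcon
          exact hI ⟨hcon.1, hcon.2⟩
        simp only [this, hI, true_and, if_false, sub_zero, one_mul]
        rfl
  rw [Finset.sum_congr rfl fun a _ => key a, ← Finset.sum_mul, Finset.sum_sub_distrib,
    Finset.sum_sub_distrib, sum_lt M k (by omega), Fin.prod_univ_two, if_neg c0, if_pos c1]
  have e : (∑ a : Fin M, if y 0 ≤ (a : ℝ) / M ∧ (a : ℝ) / M < x 0 then (1 : ℝ) else 0)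
      = cnt M (y 0) (x 0) := rfl
  rw [e]
  simp only [Finset.sum_const, Finset.card_univ, Fintype.card_fin, nsmul_eq_mul, mul_one]
  push_cast
  rw [abs_sub_comm]
  refine le_trans ?_ (le_abs_self _)
  rw [abs_le] at h0 h1
  set c := cnt M (y 0) (x 0)
  set c' := cnt M (x 1) (y 1)
  have hA : (M : ℝ) - c - k ≤ M * (1 - x 0 + y 0) + 1 - k := by linarith [h0.1]
  have hA0 : 0 ≤ M * (1 - x 0 + y 0) + 1 - k := by nlinarith
  have hB : c' ≤ M * (y 1 - x 1) + 1 := by linarith [h1.2]
  have hAB : ((M : ℝ) - c - k) * c' ≤ (M * (1 - x 0 + y 0) + 1 - k) * (M * (y 1 - x 1) + 1) :=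
    (mul_le_mul_of_nonneg_right hA hc1').trans (mul_le_mul_of_nonneg_left hB hA0)
  have hk0 : (0 : ℝ) ≤ k := by positivity
  have e1 : (k : ℝ) * M / 4 ≤ k * (M * (y 1 - x 1) + 1) := by
    have : (M : ℝ) / 4 ≤ M * (y 1 - x 1) + 1 := by nlinarith
    nlinarith
  have e2 : M * (1 - x 0 + y 0) ≤ M := by nlinarith
  have e3 : M * (y 1 - x 1) ≤ M := by nlinarith
  nlinarith

end Pool.Agent.MP_c36293_nt.H70
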